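import Pool.Agent.N273.BR.Stm2
import Pool.Agent.N478.BR.LOW

/-!
# Project BR, part LW2 (helper371): below the critical density, exactly `j` members

The proof follows part LOW (`Pool/Agent/N478/BR/LOW.lean`, helper478).
-/

set_option autoImplicit false

open MeasureTheory Filter Set
open scoped Topology ENNReal

namespace Pool.Agent.N371.BR

open Pool.Agent.R528.RM Pool.Agent.N417.SM Pool.Agent.N273.BR Pool.Agent.N478.BR

lemma LL_le {n : ℕ} (hn : 16 ≤ n) : LL n ≤ 2 := by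
  unfold LL
  have h1 := log_ge hn
  have hn0 : (0 : ℝ) < n := by exact_mod_cast (by omega : 0 < n)
  have hs : 0 < √(n : ℝ) := Real.sqrt_pos.2 hn0
  have h2 : Real.log (Real.log n) ≤ Real.log n - 1 := Real.log_le_sub_one_of_pos (by linarith)
  have h3 : Real.log (√(n : ℝ)) ≤ √(n : ℝ) - 1 := Real.log_le_sub_one_of_pos hs
  have h4 : Real.log (n : ℝ) = 2 * Real.log (√(n : ℝ)) := by
    rw [Real.log_sqrt hn0.le]
    ring
  rw [div_le_iff₀ hs]
  linarith

lemma binom_le {n j : ℕ} (hj : j ≤ n) {l u : ℝ} (hl : 0 ≤ l) (hlu : l ≤ u) (hu : u ≤ 1) :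
    (n.choose j : ℝ) * l ^ j * (1 - u) ^ (n - j) ≤ 1 := by
  have hu0 : 0 ≤ u := hl.trans hlu
  have h1 : (1 : ℝ) = ∑ m ∈ Finset.range (n + 1), u ^ m * (1 - u) ^ (n - m) * (n.choose m : ℝ) := by
    rw [← add_pow, add_sub_cancel, one_pow]
  have h2 : u ^ j * (1 - u) ^ (n - j) * (n.choose j : ℝ) ≤ 1 := by
    refine le_trans ?_ h1.ge
    have h0 : ∀ m ∈ Finset.range (n + 1), 0 ≤ u ^ m * (1 - u) ^ (n - m) * (n.choose m : ℝ) := by
      intro m _
      have : 0 ≤ 1 - u := by linarith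
      positivity
    exact Finset.single_le_sum h0 (Finset.mem_range.2 (show j < n + 1 by omega))
  have h3 : l ^ j ≤ u ^ j := pow_le_pow_left₀ hl hlu j
  have h4 : 0 ≤ (1 - u) ^ (n - j) := pow_nonneg (by linarith) _
  calc (n.choose j : ℝ) * l ^ j * (1 - u) ^ (n - j)
      ≤ (n.choose j : ℝ) * u ^ j * (1 - u) ^ (n - j) := by gcongr
    _ = u ^ j * (1 - u) ^ (n - j) * (n.choose j : ℝ) := by ring
    _ ≤ 1 := h2

/-- the weight -/
noncomputable def ww (δ c : ℝ) (j k : ℕ) : ℝ := min 1 |wj δ c j k|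

lemma ww_nonneg (δ c : ℝ) (j k : ℕ) : 0 ≤ ww δ c j k := le_min zero_le_one (abs_nonneg _)

lemma ww_le (δ c : ℝ) (j k : ℕ) : ww δ c j k ≤ 1 := min_le_left _ _

theorem lw2_of (hW : Pool.Agent.N273.BR.WLV) (hN : Pool.Agent.N273.BR.WN2)
    (hD : Pool.Agent.N273.BR.DV2) : Pool.Agent.N273.BR.LW2 := by
  intro Ω m0 μ _ ℱ A hA δ c hδ j hc hden
  -- a smaller constant
  set a : ℝ := min δ (1 / 4) with hadef
  have ha : 0 < a := lt_min hδ (by norm_num)
  have haδ : a ≤ δ := min_le_left _ _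
  have ha4 : a ≤ 1 / 4 := min_le_right _ _
  obtain ⟨K₀, hK₀⟩ := eventually_atTop.1 (hN a c ha ha4)
  have hwj : ∀ k, K₀ ≤ k → j ≤ 2 * k → 0 ≤ wj a c j k ∧ wj a c j k ≤ 1 := by
    intro k hk hjk
    obtain ⟨-, h1, h2, h3⟩ := hK₀ k hk
    refine ⟨?_, binom_le hjk h1 h2 h3⟩
    unfold wj
    have : 0 ≤ 1 - uu c k := by linarith
    positivity
  have h01 : ∀ᵐ ω ∂μ, ∀ k, 0 ≤ dens μ ℱ A k ω ∧ dens μ ℱ A k ω ≤ 1 := by
    rw [ae_all_iff]
    exact fun k => dens01 hA k
  have hE0 : ∀ᵐ ω ∂μ, ∀ᶠ n : ℕ in atTop, a * LL n ≤ dens μ ℱ A n ω ∧ dens μ ℱ A n ω ≤ lam c n := by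
    filter_upwards [hden] with ω h1
    filter_upwards [h1, eventually_ge_atTop 16] with n hn hn16
    exact ⟨(mul_le_mul_of_nonneg_right haδ (LL_pos hn16).le).trans hn.1, hn.2⟩
  have hE : ∀ᵐ ω ∂μ, ∀ᶠ n : ℕ in atTop, cl a n ≤ dens μ ℱ A n ω := by
    filter_upwards [hE0, h01] with ω h1 h2
    filter_upwards [h1] with n hn
    exact (min_le_right _ _).trans (max_le (h2 n).1 hn.1)
  -- the divergent series
  have hDv : Tendsto (fun n : ℕ => ∑ k ∈ Finset.range n, ww a c j k * cl a k ^ 2) atTop atTop := by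
    have h1 := (not_summable_iff_tendsto_nat_atTop_of_nonneg (f := fun k : ℕ =>
      |wj a c j k| * (a * LL k) ^ 2) (fun k => by positivity)).1 (hD a c j ha hc)
    refine div_mono ?_ h1
    filter_upwards [eventually_ge_atTop (K₀ + 16 + j)] with k hk
    obtain ⟨h2, h3⟩ := hwj k (by omega) (by omega)
    have h4 := LL_pos (n := k) (by omega)
    have h5 := LL_le (n := k) (by omega)
    have h6 : cl a k = a * LL k := by
      unfold cl
      rw [max_eq_right (by positivity), min_eq_right (by nlinarith)]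
    have h7 : ww a c j k = |wj a c j k| := by
      unfold ww
      rw [min_eq_right]
      rw [abs_of_nonneg h2]
      exact h3
    rw [h6, h7]
  -- Step A
  have hA1 : ∀ᵐ ω ∂μ, Tendsto (fun n : ℕ => ∑ k ∈ Finset.range n,
      ww a c j k * cl a k * (A k).indicator (fun _ => (1 : ℝ)) ω) atTop atTop := by
    filter_upwards [hW (μ := μ) (ℱ := ℱ) A hA (fun k => ww a c j (k + 1) * cl a (k + 1)) (fun k =>
      ⟨mul_nonneg (ww_nonneg _ _ _ _) (cl_nonneg _ _),
        mul_le_one₀ (ww_le _ _ _ _) (cl_nonneg _ _) (cl_le _ _)⟩), hE] with ω h1 h2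
    rw [← div_shift]
    refine h1.2 ?_
    have h3 : Tendsto (fun n : ℕ => ∑ k ∈ Finset.range n,
        (1 / 2 : ℝ) * (ww a c j (k + 1) * cl a (k + 1) ^ 2)) atTop atTop := by
      have h4 := (div_shift (f := fun k => ww a c j k * cl a k ^ 2)).2 hDv
      have h5 := h4.const_mul_atTop (show (0 : ℝ) < 1 / 2 by norm_num)
      simpa only [Finset.mul_sum] using h5
    refine div_mono ?_ h3
    filter_upwards [h2, eventually_ge_atTop 16] with k hk hk16
    have h6 := cl_succ ha hk16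
    have h7 : cl a (k + 1) / 2 ≤ dens μ ℱ A k ω := by linarith [hk]
    have h8 : 0 ≤ ww a c j (k + 1) * cl a (k + 1) :=
      mul_nonneg (ww_nonneg _ _ _ _) (cl_nonneg _ _)
    calc (1 / 2 : ℝ) * (ww a c j (k + 1) * cl a (k + 1) ^ 2)
        = ww a c j (k + 1) * cl a (k + 1) * (cl a (k + 1) / 2) := by ring
      _ ≤ ww a c j (k + 1) * cl a (k + 1) * dens μ ℱ A k ω := mul_le_mul_of_nonneg_left h7 h8
  -- Step B
  have hB1 : ∀ᵐ ω ∂μ, Tendsto (fun n : ℕ => ∑ k ∈ Finset.range n,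
      ww a c j k * (A k ∩ A (k + 1)).indicator (fun _ => (1 : ℝ)) ω) atTop atTop := by
    set s : ℕ → Set Ω := fun n => if n = 0 then ∅ else A (n - 1) ∩ A n with hs
    have hsm : ∀ n, MeasurableSet[ℱ n] (s n) := by
      intro n
      rw [hs]
      dsimp only
      split_ifs with h
      · exact @MeasurableSet.empty _ (ℱ n)
      · exact (ℱ.mono (by omega) _ (hA (n - 1))).inter (hA n)
    have hss : ∀ k, s (k + 1) = A k ∩ A (k + 1) := by
      intro k
      simp [hs]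
    have hce : ∀ᵐ ω ∂μ, ∀ k, (μ[(s (k + 1)).indicator (fun _ => (1 : ℝ)) | ℱ k]) ω =
        (A k).indicator (dens μ ℱ A k) ω := by
      rw [ae_all_iff]
      intro k
      have h1 : (s (k + 1)).indicator (fun _ => (1 : ℝ)) =
          (A k).indicator ((A (k + 1)).indicator (fun _ => (1 : ℝ))) := by
        rw [hss, Set.indicator_indicator]
      rw [h1]
      exact condExp_indicator ((integrable_const _).indicator (ℱ.le _ _ (hA _))) (hA k)
    filter_upwards [hW (μ := μ) (ℱ := ℱ) s hsm (ww a c j) (fun k => ⟨ww_nonneg _ _ _ _, ww_le _ _ _ _⟩),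
      hce, hE, hA1] with ω h1 h2 h3 h4
    simp only [hss] at h1
    refine h1.2 ?_
    refine div_mono ?_ h4
    filter_upwards [h3] with k hk
    have h5 := h2 k
    rw [hss] at h5
    rw [h5]
    by_cases hω : ω ∈ A k
    · rw [Set.indicator_of_mem hω, Set.indicator_of_mem hω, mul_one]
      exact mul_le_mul_of_nonneg_left hk (ww_nonneg _ _ _ _)
    · rw [Set.indicator_of_notMem hω, Set.indicator_of_notMem hω, mul_zero, mul_zero]
  -- Step C
  set 𝒢 : Filtration ℕ m0 := ⟨fun k => ℱ (k ^ 2), fun i j hij => ℱ.mono (Nat.pow_le_pow_left hij 2),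
    fun k => ℱ.le _⟩ with h𝒢
  set V : ℕ → Set Ω := fun n => {ω | ¬ (a * LL n ≤ dens μ ℱ A n ω ∧ dens μ ℱ A n ω ≤ lam c n)} with hVd
  have hV : ∀ n, MeasurableSet[ℱ n] (V n) := by
    intro n
    have : MeasurableSet {x : ℝ | ¬ (a * LL n ≤ x ∧ x ≤ lam c n)} :=
      (measurableSet_Icc (a := a * LL n) (b := lam c n)).compl
    exact (dens_meas (μ := μ) n).measurable this
  set K₁ : ℕ := K₀ + 2 + j with hK₁
  set D : ℕ → Set Ω := fun k => if k < K₁ then ∅ else
    (A k ∩ A (k + 1)) ∩ ({ω | cnt A (k ^ 2) (2 * k) ω = j} ∪ WV V (k ^ 2) (2 * k)) with hDd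
  have hD2 : ∀ k, K₁ ≤ k → D k =
      (A k ∩ A (k + 1)) ∩ ({ω | cnt A (k ^ 2) (2 * k) ω = j} ∪ WV V (k ^ 2) (2 * k)) := by
    intro k hk
    rw [hDd]
    exact if_neg (by omega)
  set s : ℕ → Set Ω := fun n => if n = 0 then ∅ else D (n - 1) with hs
  have hss : ∀ k, s (k + 1) = D k := by
    intro k
    simp [hs]
  have hABm : ∀ k, 2 ≤ k → MeasurableSet[ℱ (k ^ 2)] (A k ∩ A (k + 1)) := by
    intro k hk
    exact (ℱ.mono (by nlinarith) _ (hA k)).inter (ℱ.mono (by nlinarith) _ (hA (k + 1)))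
  have hDm : ∀ k, MeasurableSet[ℱ ((k + 1) ^ 2)] (D k) := by
    intro k
    by_cases hk : k < K₁
    · have : D k = ∅ := by rw [hDd]; exact if_pos hk
      rw [this]
      exact @MeasurableSet.empty _ (ℱ ((k + 1) ^ 2))
    · rw [hD2 k (by omega)]
      have h1 : k ^ 2 + 2 * k ≤ (k + 1) ^ 2 := by nlinarith
      exact (ℱ.mono (by nlinarith) _ (hABm k (by omega))).inter
        ((ℱ.mono h1 _ (cnt_meas hA _ _ _)).union (ℱ.mono h1 _ (WV_meas hV _ _)))
  have hsm : ∀ n, MeasurableSet[𝒢 n] (s n) := by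
    intro n
    cases n with
    | zero =>
      have : s 0 = ∅ := by simp [hs]
      rw [this]
      exact @MeasurableSet.empty _ (𝒢 0)
    | succ k =>
      rw [hss]
      exact hDm k
  have hce : ∀ᵐ ω ∂μ, ∀ k, K₁ ≤ k → ww a c j k * (A k ∩ A (k + 1)).indicator (fun _ => (1 : ℝ)) ω ≤
      (μ[(s (k + 1)).indicator (1 : Ω → ℝ) | 𝒢 k]) ω := by
    rw [ae_all_iff]
    intro k
    by_cases hk : K₁ ≤ k
    · have h1 : ∀ᵐ ω ∂μ, ww a c j k * (A k ∩ A (k + 1)).indicator (fun _ => (1 : ℝ)) ω ≤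
          (μ[(D k).indicator (fun _ => (1 : ℝ)) | ℱ (k ^ 2)]) ω := by
        apply condexp_ge (ℱ.le _) (ℱ.le _ _ (hDm k)) (hABm k (by omega))
        intro C hC
        obtain ⟨g1, g2, g3, g4⟩ := hK₀ k (by omega)
        have h2 := cnt_ge (μ := μ) hA hV g2 g4 g3 (2 * k) (k ^ 2) (fun n hn1 hn2 ω hω => by
          have hω' := not_not.1 hω
          obtain ⟨g5, g6⟩ := g1 n hn1 hn2
          exact ⟨g5.trans hω'.1, hω'.2.trans g6⟩) j (by omega) _ (hC.inter (hABm k (by omega)))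
        have h7 : C ∩ D k = C ∩ (A k ∩ A (k + 1)) ∩
            ({ω | cnt A (k ^ 2) (2 * k) ω = j} ∪ WV V (k ^ 2) (2 * k)) := by
          rw [hD2 k hk, Set.inter_assoc C (A k ∩ A (k + 1))]
        rw [h7]
        refine le_trans (mul_le_mul_of_nonneg_right ?_ measureReal_nonneg) h2
        have h8 := (hwj k (by omega) (by omega)).1
        calc ww a c j k ≤ |wj a c j k| := min_le_right _ _
          _ = wj a c j k := abs_of_nonneg h8
          _ = _ := rfl
      filter_upwards [h1] with ω hω _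
      rw [hss]
      exact hω
    · exact Eventually.of_forall fun ω h => absurd h hk
  filter_upwards [ae_mem_limsup_atTop_iff (μ := μ) (ℱ := 𝒢) (s := s) hsm, hce, hB1, hE0] with
    ω h1 h2 h3 h4
  have h5 : ω ∈ limsup s atTop := by
    rw [h1]
    refine div_mono ?_ h3
    filter_upwards [eventually_ge_atTop K₁] with k hk
    exact h2 k hk
  rw [mem_limsup_iff_frequently_mem] at h5
  obtain ⟨n₀, hn₀⟩ := eventually_atTop.1 h4
  rw [frequently_atTop]
  intro N
  obtain ⟨n, hn, hns⟩ := (frequently_atTop.1 h5) (max (N + 1) (max (n₀ + 1) (K₁ + 1)))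
  have hn1 : N + 1 ≤ n := (le_max_left _ _).trans hn
  have hn2 : n₀ + 1 ≤ n := ((le_max_left _ _).trans (le_max_right _ _)).trans hn
  have hn3 : K₁ + 1 ≤ n := ((le_max_right _ _).trans (le_max_right _ _)).trans hn
  obtain ⟨k, rfl⟩ : ∃ k, n = k + 1 := ⟨n - 1, by omega⟩
  rw [hss, hD2 k (by omega)] at hns
  refine ⟨k, by omega, hns.1.1, hns.1.2, ?_⟩
  rcases hns.2 with h6 | ⟨r, hr1, hr2, hr3⟩
  · exact h6
  · exfalso
    apply hr3
    refine hn₀ r ?_
    have : k ≤ k ^ 2 := by nlinarith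
    omega

end Pool.Agent.N371.BR
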